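import Pool.Agent.Helper23.QF.Goals

set_option autoImplicit false

namespace Pool.Agent.Helper93.QF

open Pool.Agent.Helper23.QF

/-- the action of a word on a real number -/
noncomputable def act (w : List ℕ) (y : ℝ) : ℝ := w.foldr (fun n z => (n : ℝ) + 1 / z) y

lemma act_nil (y : ℝ) : act [] y = y := rfl

lemma act_cons (n : ℕ) (w : List ℕ) (y : ℝ) : act (n :: w) y = (n : ℝ) + 1 / act w y := rfl

lemma act_pos (w : List ℕ) (y : ℝ) (hy : 0 < y) : 0 < act w y := by
  induction w with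
  | nil => exact hy
  | cons n w ih =>
    rw [act_cons]
    have h1 : 0 < 1 / act w y := one_div_pos.2 ih
    have h2 : (0 : ℝ) ≤ (n : ℝ) := Nat.cast_nonneg n
    linarith

lemma M_cons_entries (n : ℕ) (w : List ℕ) :
    M (n :: w) 0 0 = n * M w 0 0 + M w 1 0 ∧ M (n :: w) 0 1 = n * M w 0 1 + M w 1 1 ∧
      M (n :: w) 1 0 = M w 0 0 ∧ M (n :: w) 1 1 = M w 0 1 := by
  rw [M_cons]
  simp [mat, Matrix.mul_apply, Fin.sum_univ_two]

lemma act_mul (w : List ℕ) (hw : ∀ x ∈ w, 1 ≤ x) (y : ℝ) (hy : 0 < y) :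
    act w y * ((M w 1 0 : ℝ) * y + (M w 1 1 : ℝ)) = (M w 0 0 : ℝ) * y + (M w 0 1 : ℝ) ∧
      0 < (M w 1 0 : ℝ) * y + (M w 1 1 : ℝ) := by
  induction w with
  | nil => simp [M_nil, act_nil]
  | cons n w ih =>
    have hw' : ∀ x ∈ w, 1 ≤ x := fun x hx => hw x (List.mem_cons_of_mem _ hx)
    obtain ⟨h1, h2⟩ := ih hw'
    obtain ⟨e1, e2, e3, e4⟩ := M_cons_entries n w
    obtain ⟨m1, m2, -⟩ := M_entries w hw'
    have m1' : (1 : ℝ) ≤ (M w 0 0 : ℝ) := by exact_mod_cast m1
    have m2' : (0 : ℝ) ≤ (M w 0 1 : ℝ) := by exact_mod_cast m2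
    have hpos : 0 < (M w 0 0 : ℝ) * y + (M w 0 1 : ℝ) := by nlinarith
    have ha := act_pos w y hy
    rw [e1, e2, e3, e4, act_cons]
    refine ⟨?_, hpos⟩
    have h3 : 1 / act w y * ((M w 0 0 : ℝ) * y + (M w 0 1 : ℝ)) =
        (M w 1 0 : ℝ) * y + (M w 1 1 : ℝ) := by
      rw [← h1]
      field_simp
    push_cast
    rw [add_mul, h3]
    ring

lemma M10_pos (w : List ℕ) (hw : ∀ x ∈ w, 1 ≤ x) (hne : w ≠ []) : 1 ≤ M w 1 0 := by
  cases w with
  | nil => exact absurd rfl hne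
  | cons n w =>
    rw [(M_cons_entries n w).2.2.1]
    exact (M_entries w (fun x hx => hw x (List.mem_cons_of_mem _ hx))).1

lemma M01_pos (w : List ℕ) (hw : ∀ x ∈ w, 1 ≤ x) (hne : w ≠ []) : 1 ≤ M w 0 1 := by
  have h := M10_pos w.reverse (fun x hx => hw x (List.mem_reverse.1 hx)) (by simpa using hne)
  rw [M_reverse] at h
  simpa using h

theorem gFIELD (h : GCFSEQ) : GFIELD := by
  intro a b w d f ha hb hw hne heven hf hd
  have hw1 : ∀ x ∈ w, 1 ≤ x := by
    intro x hx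
    rcases hw x hx with rfl | rfl
    · exact ha
    · exact hb
  have hr := M10_pos w hw1 hne
  have hq := M01_pos w hw1 hne
  obtain ⟨hp, -, -, hs, -⟩ := M_entries w hw1
  have hdet : M w 0 0 * M w 1 1 - M w 0 1 * M w 1 0 = 1 := by
    have := M_det w
    rw [heven.neg_one_pow, Matrix.det_fin_two] at this
    exact this
  rw [Matrix.trace_fin_two] at hd
  set p := M w 0 0 with hpdef
  set q := M w 0 1 with hqdef
  set r := M w 1 0 with hrdef
  set s := M w 1 1 with hsdef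
  have hrR : (1 : ℝ) ≤ (r : ℝ) := by exact_mod_cast hr
  have hqR : (1 : ℝ) ≤ (q : ℝ) := by exact_mod_cast hq
  have hpR : (1 : ℝ) ≤ (p : ℝ) := by exact_mod_cast hp
  have hsR : (0 : ℝ) ≤ (s : ℝ) := by exact_mod_cast hs
  have hdetR : (p : ℝ) * s - q * r = 1 := by exact_mod_cast hdet
  have hdR : (d : ℝ) * (f : ℝ) ^ 2 = ((p : ℝ) + s) ^ 2 - 4 := by exact_mod_cast hd
  have hd0 : (0 : ℝ) ≤ (d : ℝ) := Nat.cast_nonneg d
  have hf0 : (0 : ℝ) < (f : ℝ) := by exact_mod_cast hf
  set g : ℝ := (f : ℝ) * Real.sqrt (d : ℝ) with hg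
  have hg0 : 0 ≤ g := by positivity
  have hg2 : g ^ 2 = ((p : ℝ) + s) ^ 2 - 4 := by
    rw [hg, mul_pow, Real.sq_sqrt hd0, ← hdR]
    ring
  have hgt : |(p : ℝ) - s| < g := by
    apply abs_lt_of_sq_lt_sq _ hg0
    rw [hg2]
    nlinarith [mul_pos (lt_of_lt_of_le one_pos hqR) (lt_of_lt_of_le one_pos hrR)]
  have hgt2 := (abs_lt.1 hgt).1
  set X : ℝ := ((p : ℝ) - s + g) / (2 * r) with hX
  have hX0 : 0 < X := by
    apply div_pos
    · linarith
    · linarith
  have hXr : 2 * (r : ℝ) * X = (p : ℝ) - s + g := by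
    rw [hX]
    field_simp
  have hquad : X * ((r : ℝ) * X + s) = (p : ℝ) * X + q := by
    have h4 : 4 * (r : ℝ) * (X * ((r : ℝ) * X + s) - ((p : ℝ) * X + q)) = 0 := by
      have e1 : 4 * (r : ℝ) * (X * ((r : ℝ) * X + s) - ((p : ℝ) * X + q)) =
          (2 * (r : ℝ) * X) ^ 2 + 2 * (2 * (r : ℝ) * X) * (s - p) - 4 * (q * r) := by ring
      rw [e1, hXr]
      have e2 : (q : ℝ) * r = p * s - 1 := by linarith
      rw [e2]
      nlinarith [hg2]
    have h5 : (4 : ℝ) * (r : ℝ) ≠ 0 := by positivity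
    have := (mul_eq_zero.1 h4).resolve_left h5
    linarith
  obtain ⟨ha1, ha2⟩ := act_mul w hw1 X hX0
  have hfix : act w X = X := by
    have : act w X * ((r : ℝ) * X + s) = X * ((r : ℝ) * X + s) := by rw [ha1, hquad]
    exact mul_right_cancel₀ ha2.ne' this
  have hL : 0 < w.length := List.length_pos_iff.2 hne
  -- the sequences
  let x : ℕ → ℝ := fun i => act (w.drop (i % w.length)) X
  let u : ℕ → ℕ := fun i => w.getD (i % w.length) a
  have hu : ∀ i, ∃ hj : i % w.length < w.length, u i = w[i % w.length] := by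
    intro i
    have hj := Nat.mod_lt i hL
    refine ⟨hj, ?_⟩
    show w.getD (i % w.length) a = _
    rw [List.getD_eq_getElem _ _ hj]
  have huw : ∀ i, u i ∈ w := by
    intro i
    obtain ⟨hj, e⟩ := hu i
    rw [e]
    exact List.getElem_mem hj
  have hrec : ∀ i, x i = u i + 1 / x (i + 1) := by
    intro i
    obtain ⟨hj, e⟩ := hu i
    show act (w.drop (i % w.length)) X = u i + 1 / act (w.drop ((i + 1) % w.length)) X
    rw [List.drop_eq_getElem_cons hj, act_cons, e]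
    congr 2
    by_cases hlt : i % w.length + 1 < w.length
    · have : (i + 1) % w.length = i % w.length + 1 := by
        rw [Nat.add_mod]
        rcases Nat.lt_or_ge 1 w.length with h1 | h1
        · rw [Nat.mod_eq_of_lt h1, Nat.mod_eq_of_lt hlt]
        · omega
      rw [this]
    · have heq : i % w.length + 1 = w.length := by omega
      have : (i + 1) % w.length = 0 := by
        have h1 : (i + 1) % w.length = (i % w.length + 1) % w.length := by
          rw [Nat.mod_add_mod]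
        rw [h1, heq, Nat.mod_self]
      rw [this, heq, List.drop_length, List.drop_zero, hfix, act_nil]
  have hx1 : ∀ i, 1 < x i := by
    intro i
    rw [hrec i]
    have h1 : 0 < x (i + 1) := act_pos _ _ hX0
    have h2 : 0 < 1 / x (i + 1) := one_div_pos.2 h1
    have h3 : (1 : ℝ) ≤ (u i : ℝ) := by exact_mod_cast hw1 _ (huw i)
    linarith
  have hseq := h x u hx1 hrec
  have hx0 : x 0 = X := by
    show act (w.drop (0 % w.length)) X = X
    rw [Nat.zero_mod, List.drop_zero, hfix]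
  refine ⟨((p : ℚ) - s) / (2 * r), (f : ℚ) / (2 * r), ?_, ?_⟩
  · have : (r : ℚ) ≠ 0 := by
      have : (1 : ℚ) ≤ (r : ℚ) := by exact_mod_cast hr
      intro h0
      rw [h0] at this
      norm_num at this
    have hf' : (f : ℚ) ≠ 0 := by exact_mod_cast hf.ne'
    positivity
  · have e : ((((p : ℚ) - s) / (2 * r) : ℚ) : ℝ) + (((f : ℚ) / (2 * r) : ℚ) : ℝ) * Real.sqrt (d : ℝ) = x 0 := by
      rw [hx0, hX, hg]
      push_cast
      ring
    rw [e]
    intro n
    rw [hseq n]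
    rcases hw _ (huw (n + 1)) with h1 | h1
    · left; rw [h1]
    · right; rw [h1]

end Pool.Agent.Helper93.QF
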